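import Mathlib
import Pool.Agent.MP_ddf486_co.KV.All

set_option autoImplicit false

namespace Pool.Agent.MP_ddf486_co.Old.RichLine

/-- A large planar set whose points see on average at most n over a fixed power of log n
distinct distances has exp of a power of log n points on one line. -/
theorem result :
    ∀ δ : ℝ, 0 < δ → ∃ c : ℝ, 0 < c ∧ ∃ n₀ : ℕ, ∀ P : Finset (EuclideanSpace ℝ (Fin 2)),
      n₀ ≤ P.card →
      ∑ a ∈ P, (((P.image fun b => dist a b).erase 0).card : ℝ) ≤
        (P.card : ℝ) ^ 2 / Real.log P.card ^ δ →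
      ∃ Q ⊆ P, Collinear ℝ (Q : Set (EuclideanSpace ℝ (Fin 2))) ∧
        Real.exp (Real.log P.card ^ c) ≤ Q.card :=
  Pool.Agent.MP_ddf486_co.KV.all_main

open Classical in
/-- The special case of extremal configurations, for every n at least 2. -/
theorem extremal :
    ∃ c c' : ℝ, 0 < c ∧ 0 < c' ∧ ∀ P : Finset (EuclideanSpace ℝ (Fin 2)), 2 ≤ P.card →
      (∀ P' : Finset (EuclideanSpace ℝ (Fin 2)), P'.card = P.card →
        (P.offDiag.image fun e => dist e.1 e.2).card ≤
          (P'.offDiag.image fun e => dist e.1 e.2).card) →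
      ∃ Q ⊆ P, Collinear ℝ (Q : Set (EuclideanSpace ℝ (Fin 2))) ∧
        c' * Real.exp (Real.log P.card ^ c) ≤ Q.card :=
  Pool.Agent.MP_ddf486_co.KV.extr_of result

end Pool.Agent.MP_ddf486_co.Old.RichLine
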